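import Pool.Agent.helper62.LL.SpecG
import Pool.Agent.helper62.EN.All

set_option autoImplicit false

open scoped MatrixGroups ContDiff Topology UpperHalfPlane
open UpperHalfPlane MeasureTheory Filter Set

namespace Pool.Agent.LL

open Pool.Agent.EN (XG MG mkX mkM fl pr)

theorem WGB_int (c : ℝ) (hc : 0 < c) : Integrable (fun s : ℝ => Real.exp (-(c * |s|))) := by
  rw [← integrableOn_univ, ← Iic_union_Ioi (a := (0 : ℝ)), integrableOn_union]
  constructor
  · refine (integrableOn_exp_mul_Iic hc 0).congr_fun (fun s hs => ?_) measurableSet_Iic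
    have hs' : s ≤ 0 := hs
    show Real.exp (c * s) = Real.exp (-(c * |s|))
    rw [abs_of_nonpos hs', mul_neg, neg_neg]
  · refine (integrableOn_exp_mul_Ioi (neg_neg_of_pos hc) 0).congr_fun (fun s hs => ?_) measurableSet_Ioi
    have hs' : 0 < s := hs
    show Real.exp (-c * s) = Real.exp (-(c * |s|))
    rw [abs_of_pos hs', neg_mul]

theorem WGB_proof (h1 : WGT_stmt) (h2 : BXR_stmt) : WGB_stmt := by
  intro Γ μ 𝒢 r C v hΓ hμ hinv h𝒢 hr hr1 hv hv2 hbox
  obtain ⟨hFl, -⟩ := EN.A_XFL Γ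
  obtain ⟨hc1, hc2, hc3⟩ := EN.A_XTX Γ hΓ
  have hflm : ∀ t : ℝ, Measurable (fl Γ t) := fun t =>
    (hFl.cont.comp (Continuous.prodMk_right t)).measurable
  have hflm2 : ∀ x : XG Γ, Measurable (fun s : ℝ => fl Γ s x) := fun x =>
    (hFl.cont.comp (Continuous.prodMk_left x)).measurable
  have hjm : Measurable (fun p : XG Γ × ℝ => fl Γ p.2 p.1) :=
    (hFl.cont.comp continuous_swap).measurable
  have hexm : Measurable (fun s : ℝ => Real.exp (-(2 * |s|))) := by fun_prop
  -- the weight as a lower integral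
  have hwt : ∀ x : XG Γ, ENNReal.ofReal (wt Γ 𝒢 x) =
      ∫⁻ s : ℝ, ENNReal.ofReal (Real.exp (-(2 * |s|))) * 𝒢.indicator (fun _ => (1 : ENNReal)) (fl Γ s x) := by
    intro x
    unfold wt
    have hm : Measurable (fun s : ℝ => 𝒢.indicator (fun _ => (1 : ℝ)) (fl Γ s x)) :=
      (measurable_const.indicator h𝒢).comp (hflm2 x)
    rw [ofReal_integral_eq_lintegral_ofReal]
    · refine lintegral_congr fun s => ?_
      rw [ENNReal.ofReal_mul (Real.exp_pos _).le]
      congr 1
      by_cases hs : fl Γ s x ∈ 𝒢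
      · rw [indicator_of_mem hs, indicator_of_mem hs, ENNReal.ofReal_one]
      · rw [indicator_of_notMem hs, indicator_of_notMem hs, ENNReal.ofReal_zero]
    · refine (WGB_int 2 two_pos).mono' (hexm.mul hm).aestronglyMeasurable (Eventually.of_forall fun s => ?_)
      rw [Real.norm_eq_abs, abs_mul, abs_of_pos (Real.exp_pos _)]
      refine mul_le_of_le_one_right (Real.exp_pos _).le ?_
      by_cases hs : fl Γ s x ∈ 𝒢
      · rw [indicator_of_mem hs, abs_one]
      · rw [indicator_of_notMem hs, abs_zero]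
        exact zero_le_one
    · refine Eventually.of_forall fun s => ?_
      refine mul_nonneg (Real.exp_pos _).le (indicator_nonneg (fun _ _ => zero_le_one) _)
  have hKpos : 0 ≤ |C| + r ^ (-v) := add_nonneg (abs_nonneg _) (Real.rpow_nonneg hr.le _)
  -- the measure of one slice
  have hslice : ∀ (q : XG Γ) (τ : ℝ), 0 < τ → τ ≤ r → ∀ s : ℝ,
      μ (Bx Γ r τ q ∩ fl Γ s ⁻¹' 𝒢) ≤ ENNReal.ofReal ((|C| + r ^ (-v)) * (Real.exp |s| * τ) ^ v) := by
    intro q τ hτ hτr s
    have hes : 1 ≤ Real.exp |s| := Real.one_le_exp (abs_nonneg s)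
    have het : 0 < Real.exp |s| * τ := mul_pos (Real.exp_pos _) hτ
    by_cases hle : Real.exp |s| * τ ≤ r
    · have hB := (h2 Γ r (Real.exp |s| * τ) (fl Γ s q) hΓ het.le hle hr1).2.2
      have hsub : Bx Γ r τ q ∩ fl Γ s ⁻¹' 𝒢 ⊆ fl Γ s ⁻¹' (𝒢 ∩ Bx Γ r (Real.exp |s| * τ) (fl Γ s q)) := by
        rintro y ⟨hy, hy2⟩
        exact ⟨hy2, (h2 Γ r τ q hΓ hτ.le hτr hr1).2.1 s y hy⟩
      calc μ (Bx Γ r τ q ∩ fl Γ s ⁻¹' 𝒢) ≤ μ (fl Γ s ⁻¹' (𝒢 ∩ Bx Γ r (Real.exp |s| * τ) (fl Γ s q))) :=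
            measure_mono hsub
        _ = μ.map (fl Γ s) (𝒢 ∩ Bx Γ r (Real.exp |s| * τ) (fl Γ s q)) :=
            (Measure.map_apply (hflm s) (h𝒢.inter hB.measurableSet)).symm
        _ = μ (𝒢 ∩ Bx Γ r (Real.exp |s| * τ) (fl Γ s q)) := by rw [hinv s]
        _ = ENNReal.ofReal (μ.real (𝒢 ∩ Bx Γ r (Real.exp |s| * τ) (fl Γ s q))) :=
            (ofReal_measureReal).symm
        _ ≤ ENNReal.ofReal ((|C| + r ^ (-v)) * (Real.exp |s| * τ) ^ v) := by
            apply ENNReal.ofReal_le_ofReal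
            refine (hbox _ _ het hle).trans ?_
            refine mul_le_mul_of_nonneg_right ?_ (Real.rpow_nonneg het.le _)
            have h3 := le_abs_self C
            have h4 := Real.rpow_nonneg hr.le (-v)
            linarith
    · have hgt : r < Real.exp |s| * τ := not_le.1 hle
      have h5 : (1 : ℝ) ≤ (|C| + r ^ (-v)) * (Real.exp |s| * τ) ^ v := by
        have h6 : r ^ v ≤ (Real.exp |s| * τ) ^ v := Real.rpow_le_rpow hr.le hgt.le hv.le
        have h7 : r ^ (-v) * r ^ v = 1 := by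
          rw [← Real.rpow_add hr, neg_add_cancel, Real.rpow_zero]
        calc (1 : ℝ) = r ^ (-v) * r ^ v := h7.symm
          _ ≤ r ^ (-v) * (Real.exp |s| * τ) ^ v := mul_le_mul_of_nonneg_left h6 (Real.rpow_nonneg hr.le _)
          _ ≤ (|C| + r ^ (-v)) * (Real.exp |s| * τ) ^ v := by
            refine mul_le_mul_of_nonneg_right ?_ (Real.rpow_nonneg het.le _)
            have h3 := abs_nonneg C
            linarith
      calc μ (Bx Γ r τ q ∩ fl Γ s ⁻¹' 𝒢) ≤ 1 := prob_le_one
        _ = ENNReal.ofReal 1 := ENNReal.ofReal_one.symm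
        _ ≤ _ := ENNReal.ofReal_le_ofReal h5
  refine ⟨(|C| + r ^ (-v)) * ∫ s : ℝ, Real.exp (-((2 - v) * |s|)), fun q τ hτ hτr => ?_⟩
  have hBm : MeasurableSet (Bx Γ r τ q) := (h2 Γ r τ q hΓ hτ.le hτr hr1).2.2.measurableSet
  have hInt : 0 ≤ ∫ s : ℝ, Real.exp (-((2 - v) * |s|)) := integral_nonneg fun s => (Real.exp_pos _).le
  have hmain : wm Γ μ 𝒢 (Bx Γ r τ q) ≤
      ENNReal.ofReal ((|C| + r ^ (-v)) * (∫ s : ℝ, Real.exp (-((2 - v) * |s|))) * τ ^ v) := by
    unfold wm
    rw [withDensity_apply _ hBm]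
    calc ∫⁻ x in Bx Γ r τ q, ENNReal.ofReal (wt Γ 𝒢 x) ∂μ
        = ∫⁻ x in Bx Γ r τ q, (∫⁻ s : ℝ, ENNReal.ofReal (Real.exp (-(2 * |s|))) *
            𝒢.indicator (fun _ => (1 : ENNReal)) (fl Γ s x)) ∂μ := lintegral_congr fun x => hwt x
      _ = ∫⁻ s : ℝ, (∫⁻ x in Bx Γ r τ q, ENNReal.ofReal (Real.exp (-(2 * |s|))) *
            𝒢.indicator (fun _ => (1 : ENNReal)) (fl Γ s x) ∂μ) := by
          refine lintegral_lintegral_swap ?_
          refine Measurable.aemeasurable ?_
          refine Measurable.mul ?_ ?_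
          · exact ENNReal.measurable_ofReal.comp (hexm.comp measurable_snd)
          · exact (measurable_const.indicator h𝒢).comp hjm
      _ ≤ ∫⁻ s : ℝ, ENNReal.ofReal (((|C| + r ^ (-v)) * τ ^ v) * Real.exp (-((2 - v) * |s|))) := by
          refine lintegral_mono fun s => ?_
          have e1 : ∫⁻ x in Bx Γ r τ q, ENNReal.ofReal (Real.exp (-(2 * |s|))) *
              𝒢.indicator (fun _ => (1 : ENNReal)) (fl Γ s x) ∂μ =
              ENNReal.ofReal (Real.exp (-(2 * |s|))) * μ (Bx Γ r τ q ∩ fl Γ s ⁻¹' 𝒢) := by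
            rw [lintegral_const_mul' _ _ ENNReal.ofReal_ne_top]
            congr 1
            have e2 : (fun x => 𝒢.indicator (fun _ => (1 : ENNReal)) (fl Γ s x)) =
                (fl Γ s ⁻¹' 𝒢).indicator (fun _ => (1 : ENNReal)) := by
              funext x
              rfl
            rw [e2, lintegral_indicator ((hflm s) h𝒢), lintegral_one, Measure.restrict_restrict ((hflm s) h𝒢),
              Measure.restrict_apply_univ, inter_comm]
          refine e1.trans_le ?_
          refine (mul_le_mul_right (hslice q τ hτ hτr s) _).trans ?_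
          rw [← ENNReal.ofReal_mul (Real.exp_pos _).le]
          apply ENNReal.ofReal_le_ofReal
          rw [Real.mul_rpow (Real.exp_pos _).le hτ.le, ← Real.exp_mul]
          have e3 : Real.exp (-(2 * |s|)) * ((|C| + r ^ (-v)) * (Real.exp (|s| * v) * τ ^ v)) =
              ((|C| + r ^ (-v)) * τ ^ v) * (Real.exp (-(2 * |s|)) * Real.exp (|s| * v)) := by ring
          rw [e3, ← Real.exp_add]
          have e4 : -(2 * |s|) + |s| * v = -((2 - v) * |s|) := by ring
          rw [e4]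
      _ = ENNReal.ofReal (∫ s : ℝ, ((|C| + r ^ (-v)) * τ ^ v) * Real.exp (-((2 - v) * |s|))) := by
          rw [ofReal_integral_eq_lintegral_ofReal]
          · exact (WGB_int (2 - v) (by linarith)).const_mul _
          · refine Eventually.of_forall fun s => ?_
            exact mul_nonneg (mul_nonneg hKpos (Real.rpow_nonneg hτ.le _)) (Real.exp_pos _).le
      _ = _ := by
          rw [integral_const_mul]
          congr 1
          ring
  have hnn : 0 ≤ (|C| + r ^ (-v)) * (∫ s : ℝ, Real.exp (-((2 - v) * |s|))) * τ ^ v :=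
    mul_nonneg (mul_nonneg hKpos hInt) (Real.rpow_nonneg hτ.le _)
  exact ENNReal.toReal_le_of_le_ofReal hnn hmain

end Pool.Agent.LL
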